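import Pool.Agent.MP_ab7c65_al.H52T.Code

/-!
Regular graphs given by rotation maps and their spectral expansion.
-/

namespace Pool.Agent.MP_ab7c65_al.H11X

open Finset

/-- Two-sided spectral expansion of the graph with rotation map `R`, for vector valued functions. -/
def Exp {N T : Type} [Fintype N] [Fintype T] (R : N × T → N × T) (lam : ℝ) : Prop :=
  ∀ (V : Type) [NormedAddCommGroup V] [InnerProductSpace ℝ V] (f : N → V), ∑ v, f v = 0 →
    ∑ v, ‖∑ t, f (R (v, t)).1‖ ^ 2 ≤ (lam * Fintype.card T) ^ 2 * ∑ v, ‖f v‖ ^ 2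

end Pool.Agent.MP_ab7c65_al.H11X
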