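import Pool.Agent.MP_ab7c65_al.H11X.Defs

/-!
The fixed point theorem for the group of an expander code in which adjacent vertex groups commute.
-/

namespace Pool.Agent.MP_ab7c65_al.H11X

open Finset Multiplicative Pool.Agent.MP_ab7c65_al.H52T

variable {V : Type} [NormedAddCommGroup V] [InnerProductSpace ℝ V]

lemma sum_dev {N : Type} [Fintype N] [Nonempty N] (x : N → V) :
    ∑ i, (x i - (Fintype.card N : ℝ)⁻¹ • ∑ j, x j) = 0 := by
  have hm' : (Fintype.card N : ℝ) ≠ 0 := by exact_mod_cast Fintype.card_ne_zero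
  rw [Finset.sum_sub_distrib, Finset.sum_const, Finset.card_univ,
    ← Nat.cast_smul_eq_nsmul ℝ, smul_smul, mul_inv_cancel₀ hm', one_smul, sub_self]

lemma var_le' {N : Type} [Fintype N] [Nonempty N] (x : N → V) (y : V) :
    ∑ i, ‖x i - (Fintype.card N : ℝ)⁻¹ • ∑ j, x j‖ ^ 2 ≤ ∑ i, ‖x i - y‖ ^ 2 := by
  have h0 := sum_dev x
  set z := (Fintype.card N : ℝ)⁻¹ • ∑ j, x j with hz
  have h1 : ∀ i, ‖x i - y‖ ^ 2 =
      ‖x i - z‖ ^ 2 + 2 * inner ℝ (x i - z) (z - y) + ‖z - y‖ ^ 2 := fun i => by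
    rw [← norm_add_sq_real, sub_add_sub_cancel]
  rw [Finset.sum_congr rfl (fun i _ => h1 i), Finset.sum_add_distrib, Finset.sum_add_distrib,
    ← Finset.mul_sum, ← sum_inner, h0, inner_zero_left]
  have : 0 ≤ ∑ _i : N, ‖z - y‖ ^ 2 := Finset.sum_nonneg fun t _ => sq_nonneg _
  linarith

lemma proj_sq_le {P : V →ₗ[ℝ] V} (h : IsProj P) (v : V) : ‖P v‖ ^ 2 ≤ ‖v‖ ^ 2 := by
  linarith [h.pyth v, sq_nonneg ‖v - P v‖]

lemma coproj_sq_le {P : V →ₗ[ℝ] V} (h : IsProj P) (v : V) : ‖v - P v‖ ^ 2 ≤ ‖v‖ ^ 2 := by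
  linarith [h.pyth v, sq_nonneg ‖P v‖]

lemma orth_sq {P : V →ₗ[ℝ] V} (h : IsProj P) (v w : V) :
    ‖v - P v + P w‖ ^ 2 = ‖v - P v‖ ^ 2 + ‖P w‖ ^ 2 := by
  rw [norm_add_sq_real, ← h.sym, map_sub, h.idem, sub_self, inner_zero_left]; ring

lemma lin_mul {G : Type} [Group G] (α : G →* (V ≃ᵃⁱ[ℝ] V)) (g h : G) (v : V) :
    lin α (g * h) v = lin α g (lin α h v) := by
  rw [lin_eq, act_mul, act_mul, ← lin_sub, ← lin_eq]

lemma edge_le {U G : Type} [AddCommGroup U] [Fintype U] [Group G] (α : G →* (V ≃ᵃⁱ[ℝ] V))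
    (θ φ : Multiplicative U →* G) (hc : ∀ x y, Commute (θ x) (φ y)) (a b m : V)
    (ha : ∀ x, α (θ x) a = a) (hb : ∀ x, α (φ x) b = b) :
    ‖a - b - av (fun x : U => lin α (θ (ofAdd x))) (a - b)‖ ^ 2 ≤
      5 / 4 * ‖a - m - av (fun x : U => lin α (θ (ofAdd x))) (a - m)‖ ^ 2 +
        5 * ‖av (fun x : U => lin α (φ (ofAdd x))) (b - m)‖ ^ 2 := by
  have hP := (lin_rep α θ).isProj
  have hQ := (lin_rep α φ).isProj
  have hPQ := av_comm (fun x : U => lin α (θ (ofAdd x))) (fun x : U => lin α (φ (ofAdd x)))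
    (fun x y v => by rw [← lin_mul, ← lin_mul, (hc _ _).eq])
  have hU : (Fintype.card U : ℝ) ≠ 0 := by exact_mod_cast Fintype.card_ne_zero
  have e1 : a - b - av (fun x : U => lin α (φ (ofAdd x))) (a - b) =
      (Fintype.card U : ℝ)⁻¹ • ∑ k : U, (a - α (φ (ofAdd k)) a) := by
    rw [av_apply]
    simp only [lin_sub, hb]
    rw [Finset.sum_sub_distrib, Finset.sum_sub_distrib, Finset.sum_const, Finset.sum_const,
      Finset.card_univ, ← Nat.cast_smul_eq_nsmul ℝ, ← Nat.cast_smul_eq_nsmul ℝ, smul_sub, smul_sub,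
      smul_smul, smul_smul, inv_mul_cancel₀ hU, one_smul, one_smul]
    abel
  have e2 : av (fun x : U => lin α (θ (ofAdd x)))
      (a - b - av (fun x : U => lin α (φ (ofAdd x))) (a - b)) =
      a - b - av (fun x : U => lin α (φ (ofAdd x))) (a - b) := by
    refine av_of_fixed fun x => ?_
    rw [e1, map_smul, map_sum]
    refine congrArg _ (Finset.sum_congr rfl fun k _ => ?_)
    rw [lin_sub, ← act_mul, (hc _ _).eq, act_mul, ha]
  set P := av (fun x : U => lin α (θ (ofAdd x))) with hPd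
  set Q := av (fun x : U => lin α (φ (ofAdd x))) with hQd
  have e3 : a - b - P (a - b) = Q (a - m - P (a - m)) - (Q (b - m) - P (Q (b - m))) := by
    have e4 : a - b = (a - m) - (b - m) := by abel
    rw [map_sub P (a - b)] at e2
    have e5 : a - b - P (a - b) = Q (a - b) - P (Q (a - b)) := by
      rw [sub_eq_sub_iff_sub_eq_sub, ← e2]
    rw [e5, e4, map_sub Q (a - m), map_sub P, map_sub Q (a - m), hPQ (a - m)]
    abel
  have n1 : ‖Q (a - m - P (a - m))‖ ≤ ‖a - m - P (a - m)‖ :=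
    abs_le_of_sq_le_sq' (proj_sq_le hQ _) (norm_nonneg _) |>.2
  have n2 : ‖Q (b - m) - P (Q (b - m))‖ ≤ ‖Q (b - m)‖ :=
    abs_le_of_sq_le_sq' (coproj_sq_le hP _) (norm_nonneg _) |>.2
  have n3 := (norm_sub_le _ _).trans (add_le_add n1 n2)
  rw [← e3] at n3
  have n4 := pow_le_pow_left₀ (norm_nonneg _) n3 2
  nlinarith [sq_nonneg (‖a - m - P (a - m)‖ / 2 - 2 * ‖Q (b - m)‖)]

theorem fixed_point2 {K U N T : Type} [Field K] [Fintype K] [AddCommGroup U] [Module K U]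
    [Fintype U] [Fintype N] [Nonempty N] [Fintype T] [Nonempty T] [DecidableEq T]
    (R : N × T → N × T) (hR : Function.Involutive R) (hE : Exp R (1 / 10)) {r : ℕ}
    (hr : 16 * r ≤ 9 * Fintype.card T) (L : T → U)
    (hL : ∀ J : Finset T, J.card = r + 1 → ∀ x : U, ∃ c : T → K, x = ∑ t ∈ J, c t • L t)
    {G : Type} [Group G] (θ : N → (Multiplicative U →* G))
    (h2 : ∀ v t (c : K), θ v (ofAdd (c • L t)) = θ (R (v, t)).1 (ofAdd (c • L (R (v, t)).2)))
    (h3 : ∀ v t x y, Commute (θ v x) (θ (R (v, t)).1 y))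
    (V : Type) [NormedAddCommGroup V] [InnerProductSpace ℝ V] [CompleteSpace V]
    (α : G →* (V ≃ᵃⁱ[ℝ] V)) : ∃ w, ∀ v x, α (θ v x) w = w := by
  classical
  have hT : (0 : ℝ) < Fintype.card T := by exact_mod_cast Fintype.card_pos
  have hr' : 16 * (r : ℝ) ≤ 9 * Fintype.card T := by exact_mod_cast hr
  have hreg : ∀ g : N → ℝ, ∑ v, ∑ t, g (R (v, t)).1 = Fintype.card T * ∑ v, g v := fun g => by
    rw [← Fintype.sum_prod_type' (fun v t => g (R (v, t)).1),
      Function.Bijective.sum_comp hR.bijective (fun e => g e.1), Fintype.sum_prod_type]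
    simp [Finset.mul_sum]
  let S : Set (N → V) := {F | ∀ v x, α (θ v x) (F v) = F v}
  let E : (N → V) → ℝ := fun F => 3 * ∑ v, ‖F v - (Fintype.card N : ℝ)⁻¹ • ∑ j, F j‖ ^ 2
  have hS : IsClosed S := by
    simp only [S, Set.ofPred_forall]
    exact isClosed_iInter fun v => isClosed_iInter fun x =>
      isClosed_eq ((α _).continuous.comp (continuous_apply v)) (continuous_apply v)
  have hne : S.Nonempty := by
    choose f hf using fun φ : Multiplicative U →* G => exists_fixed α φ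
    exact ⟨fun v => f (θ v), fun v x => hf _ x⟩
  obtain ⟨F, hF, hE0⟩ := descent S hS hne E (by simp only [E]; fun_prop)
    (fun F => mul_nonneg (by norm_num) (Finset.sum_nonneg fun i _ => sq_nonneg _))
    (κ := 99 / 100) (by norm_num) (by norm_num) (by
    intro F hF
    have h0 := sum_dev F
    set z : V := (Fintype.card N : ℝ)⁻¹ • ∑ j, F j with hz
    let P : N → V →ₗ[ℝ] V := fun v => av (fun x : U => lin α (θ v (ofAdd x)))
    have hP : ∀ v, IsProj (P v) := fun v => (lin_rep α (θ v)).isProj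
    have hPf : ∀ v x w, lin α (θ v x) (P v w) = P v w := fun v x w =>
      (lin_rep α (θ v)).rho_av (toAdd x) w
    obtain ⟨w, hw⟩ : ∃ w : N → V, ∀ v, w v =
      (Fintype.card T : ℝ)⁻¹ • ∑ t, (F (R (v, t)).1 - z) := ⟨_, fun _ => rfl⟩
    obtain ⟨H, hH⟩ : ∃ H, H = ∑ v, ‖F v - z‖ ^ 2 := ⟨_, rfl⟩
    have H0 : 0 ≤ H := hH ▸ Finset.sum_nonneg fun i _ => sq_nonneg _
    have b1 : ∑ v, ‖w v‖ ^ 2 ≤ H / 100 := by
      have := hE V (fun v => F v - z) h0
      simp only [hw, norm_smul, mul_pow, Real.norm_eq_abs, sq_abs]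
      rw [← Finset.mul_sum, inv_pow, inv_mul_le_iff₀ (by positivity)]
      rw [← hH] at this
      refine this.trans (le_of_eq (by ring))
    have b2 : ∀ v, (Fintype.card T : ℝ) ^ 2 * ‖F v - z - w v - P v (F v - z - w v)‖ ^ 2 ≤
        r * ∑ t, (5 / 4 * ‖F v - z - P v (F v - z)‖ ^ 2 +
          5 * ‖P (R (v, t)).1 (F (R (v, t)).1 - z)‖ ^ 2) := fun v => by
      have hl := local_le (lin_rep α (θ v)) L r hL
        (fun t => F v - F (R (v, t)).1 - P v (F v - F (R (v, t)).1)) (fun t c => by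
          rw [map_sub, hPf, lin_sub, hF, h2, hF])
      have e1 : ∑ t, (F v - F (R (v, t)).1) = (Fintype.card T : ℝ) • (F v - z - w v) := by
        rw [hw, smul_sub _ (F v - z), smul_smul, mul_inv_cancel₀ hT.ne', one_smul,
          Nat.cast_smul_eq_nsmul, ← Finset.card_univ, ← Finset.sum_const, ← Finset.sum_sub_distrib]
        exact Finset.sum_congr rfl fun t _ => by abel
      rw [Finset.sum_sub_distrib, ← map_sum, e1] at hl
      change ‖_ - P v _‖ ^ 2 ≤ _ at hl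
      rw [map_sub (P v), (hP v).idem, sub_self, sub_zero, map_smul, ← smul_sub, norm_smul, mul_pow,
        Real.norm_eq_abs, sq_abs] at hl
      refine hl.trans (mul_le_mul_of_nonneg_left (Finset.sum_le_sum fun t _ => ?_) (by positivity))
      exact edge_le α (θ v) (θ (R (v, t)).1) (h3 v t) _ _ z (hF v) (hF _)
    obtain ⟨a2, ha2⟩ : ∃ a2, a2 = ∑ v, ‖F v - z - P v (F v - z)‖ ^ 2 := ⟨_, rfl⟩
    obtain ⟨c2, hc2⟩ : ∃ c2, c2 = ∑ v, ‖P v (F v - z)‖ ^ 2 := ⟨_, rfl⟩
    obtain ⟨d2, hd2⟩ : ∃ d2, d2 = ∑ v, ‖F v - z - w v - P v (F v - z - w v)‖ ^ 2 := ⟨_, rfl⟩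
    have a0 : 0 ≤ a2 := ha2 ▸ Finset.sum_nonneg fun i _ => sq_nonneg _
    have c0 : 0 ≤ c2 := hc2 ▸ Finset.sum_nonneg fun i _ => sq_nonneg _
    have b3 : a2 = H - c2 := by
      rw [ha2, hH, hc2, ← Finset.sum_sub_distrib]
      exact Finset.sum_congr rfl fun v _ => (hP v).pyth _
    have b4 : d2 ≤ 9 / 16 * (5 / 4 * a2 + 5 * c2) := by
      have h5 := Finset.sum_le_sum fun v (_ : v ∈ univ) => b2 v
      simp only [Finset.sum_add_distrib, ← Finset.mul_sum, Finset.sum_const, Finset.card_univ,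
        nsmul_eq_mul, mul_add] at h5
      rw [hreg (fun u => ‖P u (F u - z)‖ ^ 2), ← ha2, ← hc2, ← hd2] at h5
      have h6 : (Fintype.card T : ℝ) ^ 2 * d2 ≤
          (Fintype.card T : ℝ) ^ 2 * (9 / 16 * (5 / 4 * a2 + 5 * c2)) := by
        have := mul_le_mul_of_nonneg_right hr'
          (show 0 ≤ (Fintype.card T : ℝ) * (5 / 4 * a2 + 5 * c2) by positivity)
        nlinarith
      exact le_of_mul_le_mul_left h6 (by positivity)
    have b5 : a2 ≤ 6 / 5 * d2 + 6 * ∑ v, ‖w v‖ ^ 2 := by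
      rw [ha2, hd2, Finset.mul_sum, Finset.mul_sum, ← Finset.sum_add_distrib]
      refine Finset.sum_le_sum fun v _ => ?_
      have e : F v - z - P v (F v - z) =
          (F v - z - w v - P v (F v - z - w v)) + (w v - P v (w v)) := by
        rw [map_sub (P v) (F v - z)]; abel
      have n1 := pow_le_pow_left₀ (norm_nonneg _) (norm_add_le
        (F v - z - w v - P v (F v - z - w v)) (w v - P v (w v))) 2
      rw [← e] at n1
      nlinarith [coproj_sq_le (hP v) (w v),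
        sq_nonneg (‖F v - z - w v - P v (F v - z - w v)‖ - 5 * ‖w v - P v (w v)‖)]
    refine ⟨fun v => F v - P v (F v - z - w v), fun v x => ?_, ?_, ?_⟩
    · have := lin_sub α (θ v x) (F v) (F v - P v (F v - z - w v))
      rw [sub_sub_cancel, hF, hPf] at this
      exact eq_sub_of_add_eq (add_comm (P v (F v - z - w v)) _ ▸ eq_sub_iff_add_eq.mp this)
    · have hE1 : 0 ≤ E F := mul_nonneg (by norm_num) (Finset.sum_nonneg fun i _ => sq_nonneg _)
      rw [← Real.sq_sqrt hE1]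
      refine pow_le_pow_left₀ dist_nonneg ((dist_pi_le_iff (Real.sqrt_nonneg _)).mpr fun v => ?_) 2
      rw [dist_eq_norm, sub_sub_cancel]
      refine Real.le_sqrt_of_sq_le ((proj_sq_le (hP v) _).trans ?_)
      have h4 : ‖F v - z‖ ^ 2 ≤ H := hH ▸
        Finset.single_le_sum (f := fun i => ‖F i - z‖ ^ 2) (fun i _ => sq_nonneg _) (mem_univ v)
      have h5 : ‖w v‖ ^ 2 ≤ ∑ v, ‖w v‖ ^ 2 :=
        Finset.single_le_sum (f := fun i => ‖w i‖ ^ 2) (fun i _ => sq_nonneg _) (mem_univ v)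
      have n1 := pow_le_pow_left₀ (norm_nonneg _) (norm_sub_le (F v - z) (w v)) 2
      change _ ≤ 3 * ∑ v, ‖F v - z‖ ^ 2
      rw [← hH]
      nlinarith [sq_nonneg (‖F v - z‖ - ‖w v‖)]
    · have h7 := var_le' (fun v => F v - P v (F v - z - w v)) z
      have h8 : ∑ v, ‖F v - P v (F v - z - w v) - z‖ ^ 2 ≤ a2 + ∑ v, ‖w v‖ ^ 2 := by
        rw [ha2, ← Finset.sum_add_distrib]
        refine Finset.sum_le_sum fun v _ => ?_
        have e : F v - P v (F v - z - w v) - z = F v - z - P v (F v - z) + P v (w v) := by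
          rw [map_sub (P v) (F v - z)]; abel
        rw [e, orth_sq (hP v)]
        linarith [proj_sq_le (hP v) (w v)]
      change 3 * _ ≤ 99 / 100 * (3 * ∑ v, ‖F v - z‖ ^ 2)
      rw [← hH]
      linarith)
  refine ⟨(Fintype.card N : ℝ)⁻¹ • ∑ j, F j, fun v x => ?_⟩
  have h9 : ∑ v, ‖F v - (Fintype.card N : ℝ)⁻¹ • ∑ j, F j‖ ^ 2 = 0 := by
    simp only [E] at hE0; linarith
  have := (Finset.sum_eq_zero_iff_of_nonneg (fun i _ => sq_nonneg _)).mp h9 v (mem_univ v)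
  rw [← sub_eq_zero.mp (norm_eq_zero.mp (pow_eq_zero_iff two_ne_zero |>.mp this))]
  exact hF v x

end Pool.Agent.MP_ab7c65_al.H11X
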