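import Pool.Agent.MP_ab7c65_al.H11X.Fix
import Pool.Agent.MP_ab7c65_al.H52T.Grp

namespace Pool.Agent.MP_ab7c65_al.H11X

open Finset Multiplicative Pool.Agent.MP_ab7c65_al.H52T Pool.Agent.MP_ab7c65_al.PF

theorem grp_num {m r N d : ℕ} (hm : 0 < m) (hr : 9 * m < 16 * (r + 1))
    (h : 2 * (m * N * (r + 1)) ≤ 2 * d + m * N * m) : N ≤ 8 * d := by
  have h1 : m * N * (9 * m + 1) ≤ m * N * (16 * (r + 1)) := Nat.mul_le_mul_left _ hr
  have h2 : N * 1 * 2 ≤ N * m * (m + 1) :=
    Nat.mul_le_mul (Nat.mul_le_mul_left _ hm) (Nat.succ_le_succ hm)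
  nlinarith

theorem exists_group2 (m : ℕ) (hm : 0 < m) : ∃ c : ℕ, ∀ (p : ℕ) [Fact p.Prime] (N : Type)
    [Fintype N] [Nonempty N] (R : N × Fin m → N × Fin m), Function.Involutive R → Exp R (1 / 10) →
    ∃ (d n : ℕ) (rels : Fin n → FreeGroup (Fin d)), Fintype.card N ≤ 8 * d ∧
      n ≤ c * Fintype.card N + d ∧ (∀ i, rels i ∈ Za p _ 1) ∧
      ∀ (V : Type) [NormedAddCommGroup V] [InnerProductSpace ℝ V] [CompleteSpace V]
        (α : PresentedGroup (Set.range rels) →* (V ≃ᵃⁱ[ℝ] V)), ∃ v, ∀ g, α g v = v := by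
  classical
  obtain ⟨r, r1, r2⟩ : ∃ r, 16 * r ≤ 9 * m ∧ 9 * m < 16 * (r + 1) :=
    ⟨9 * m / 16, by omega, by omega⟩
  refine ⟨m * (4 * ((r + 1) * m) ^ 2 + 5 * ((r + 1) * m)) + (r + 1) * m, ?_⟩
  intro p hp N _ _ R hR hE
  have := Fintype.ofFinite (GaloisField p m)
  have hc : Fintype.card (Fin m) ≤ Fintype.card (GaloisField p m) := by
    rw [Fintype.card_fin, ← Nat.card_eq_fintype_card, GaloisField.card p m hm.ne']
    exact (Nat.lt_pow_self hp.out.one_lt).le
  obtain ⟨ι⟩ := Function.Embedding.nonempty_of_card_le hc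
  have bK := Module.finBasisOfFinrankEq (ZMod p) (GaloisField p m) (GaloisField.finrank p hm.ne')
  obtain ⟨d, n, rels, h1, h2, h3, θ, h4, h5, h6⟩ := exists_tanner p (GaloisField p m) bK (r := r) hm
    (fun t s => ι t ^ (s : ℕ)) N R hR
  refine ⟨d, n, rels, grp_num hm r2 h1, ?_, h3, fun V _ _ _ α => ?_⟩
  · rw [mul_comm] at h2
    exact h2.trans (Nat.le_add_right _ _)
  have : Nonempty (Fin m) := ⟨⟨0, hm⟩⟩
  obtain ⟨w, hw⟩ := fixed_point2 (K := GaloisField p m) R hR hE (r := r) (by simpa using r1)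
    (fun t (s : Fin (r + 1)) => ι t ^ (s : ℕ)) (fun J hJ x => by
      obtain ⟨c, e⟩ := vdm_span (J.map ι) (by rw [card_map, hJ]) x
      exact ⟨fun t => c (ι t), by rw [e, sum_map]⟩) θ h4 h5 V α
  let Z : Subgroup (PresentedGroup (Set.range rels)) :=
    { carrier := {g | α g w = w}
      one_mem' := by simp
      mul_mem' := fun {a b} ha hb => by
        have ha' : α a w = w := ha
        have hb' : α b w = w := hb
        change α (a * b) w = w
        rw [map_mul, AffineIsometryEquiv.coe_mul, Function.comp_apply, hb', ha']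
      inv_mem' := fun {a} ha => by
        have ha' : α a w = w := ha
        change α a⁻¹ w = w
        apply (α a).injective
        rw [ha', ← Function.comp_apply (f := α a), ← AffineIsometryEquiv.coe_mul, ← map_mul]
        simp }
  exact ⟨w, h6 Z hw⟩

end Pool.Agent.MP_ab7c65_al.H11X
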